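import Pool.Agent.helper42.CQ.SpecC

/-!
# EXC: the untouched edges in turns with many edges of K
-/

set_option autoImplicit false

namespace Pool.Agent.helper42.CQ

open Finset Pool.Agent.helper24.CG

open Classical in
theorem EXC_cmp_card {N : ℕ} (M : ℕ) (K : Finset (Fin N)) (s : ℕ) (H : List (ES N)) (z : Fin N)
    (hz : z ∈ K) (h : z ∉ Gs M K s H) : (cmp M K H z).card ≤ s - 1 := by
  unfold Gs at h
  rw [mem_filter] at h
  by_contra hc
  exact h ⟨hz, Or.inr (by omega)⟩

open Classical in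
theorem EXC_pair {N : ℕ} (A B : Finset (Fin N)) (S : ES N) (hd : Disjoint B A)
    (h2 : ∀ e ∈ S, e.card = 2) (hA : ∀ e ∈ S, ¬ Disjoint e A) (hB : ∀ e ∈ S, ¬ Disjoint e B) :
    S.card ≤ A.card * B.card := by
  have hsub : S ⊆ (A ×ˢ B).image (fun x => ({x.1, x.2} : Finset (Fin N))) := by
    intro e he
    obtain ⟨a, hae, haA⟩ := not_disjoint_iff.1 (hA e he)
    obtain ⟨b, hbe, hbB⟩ := not_disjoint_iff.1 (hB e he)
    have hab : a ≠ b := by
      intro hab
      subst hab
      exact disjoint_left.1 hd hbB haA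
    rw [mem_image]
    refine ⟨(a, b), mem_product.2 ⟨haA, hbB⟩, ?_⟩
    apply eq_of_subset_of_card_le
    · intro y hy
      rw [mem_insert, mem_singleton] at hy
      rcases hy with rfl | rfl
      · exact hae
      · exact hbe
    · rw [card_pair hab, h2 e he]
  calc S.card ≤ _ := card_le_card hsub
    _ ≤ (A ×ˢ B).card := card_image_le
    _ = _ := card_product _ _

open Classical in
theorem EXC (hNTC : NTC_stmt) (hEX1 : EX1_stmt) (hREL : REL_stmt) : EXC_stmt := by
  intro N m q M s K H hH hM hs hK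
  obtain ⟨_, _, _, _, hdisj, _⟩ := hREL N M K hM
  obtain ⟨T, hT⟩ : ∃ T : Fin N → Finset (ES N), T = fun z =>
    H.toFinset.filter (fun E => newT M K s H z E) := ⟨_, rfl⟩
  obtain ⟨X, hX⟩ : ∃ X : Fin N → Finset (Fin N), X = fun z =>
    K.filter (fun x => ∃ H₂ H₁ : List (ES N), H = H₂ ++ H₁ ∧ z ∉ Gs M K s H₁ ∧ x ∈ cmp M K H₁ z) :=
    ⟨_, rfl⟩
  have hTc : ∀ z ∈ K, (T z).card ≤ 2 * M ^ 2 := by
    intro z hz
    apply hNTC N m M s K H z (T z) hH hM hz
    intro E hE
    rw [hT] at hE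
    exact (mem_filter.1 hE).2
  have hXc : ∀ z ∈ K, (X z).card ≤ s := by
    intro z hz
    apply hEX1 N M s K H z (X z) hM hz
    intro x hx
    rw [hX] at hx
    exact (mem_filter.1 hx).2
  obtain ⟨A1, hA1⟩ : ∃ A1 : ES N, A1 = K.biUnion (fun z => (T z).biUnion (fun E => E)) := ⟨_, rfl⟩
  obtain ⟨A2, hA2⟩ : ∃ A2 : ES N, A2 = K.biUnion (fun z => (X z).image
    (fun x => ({z, x} : Finset (Fin N)))) := ⟨_, rfl⟩
  have hA1c : A1.card ≤ 2 * q * m * M ^ 2 := by
    rw [hA1]
    calc _ ≤ ∑ z ∈ K, ((T z).biUnion (fun E => E)).card := card_biUnion_le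
      _ ≤ ∑ z ∈ K, 2 * M ^ 2 * m := by
          apply sum_le_sum
          intro z hz
          calc ((T z).biUnion (fun E => E)).card ≤ ∑ E ∈ T z, E.card := card_biUnion_le
            _ ≤ ∑ E ∈ T z, m := by
                apply sum_le_sum
                intro E hE
                rw [hT] at hE
                have hEH : E ∈ H := List.mem_toFinset.1 (mem_filter.1 hE).1
                exact (hH.mem E hEH).2.2
            _ = (T z).card * m := by rw [sum_const, smul_eq_mul]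
            _ ≤ 2 * M ^ 2 * m := Nat.mul_le_mul_right _ (hTc z hz)
      _ = 2 * q * m * M ^ 2 := by
          rw [sum_const, smul_eq_mul, hK]
          ring
  have hA2c : A2.card ≤ q * s := by
    rw [hA2]
    calc _ ≤ ∑ z ∈ K, ((X z).image (fun x => ({z, x} : Finset (Fin N)))).card := card_biUnion_le
      _ ≤ ∑ z ∈ K, s := by
          apply sum_le_sum
          intro z hz
          exact card_image_le.trans (hXc z hz)
      _ = q * s := by rw [sum_const, smul_eq_mul, hK]
  have hsub : (ed K).filter (fun e => (∃ E ∈ H, e ∈ E ∧ (s - 1) ^ 2 < (E ∩ ed K).card) ∧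
      ¬ tch M K s H e) ⊆ A1 ∪ A2 := by
    intro e he
    rw [mem_filter] at he
    obtain ⟨heK, ⟨E, hEH, heE, hcard⟩, htch⟩ := he
    have heK' := heK
    unfold ed at heK'
    rw [mem_powersetCard] at heK'
    obtain ⟨heK1, he2⟩ := heK'
    obtain ⟨z, x, hzx, hezx⟩ := card_eq_two.1 he2
    have hze : z ∈ e := by rw [hezx]; exact mem_insert_self _ _
    have hxe : x ∈ e := by rw [hezx]; exact mem_insert_of_mem (mem_singleton_self _)
    have hzK : z ∈ K := heK1 hze
    have hxK : x ∈ K := heK1 hxe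
    obtain ⟨H₂, H₁, hsplit⟩ := List.append_of_mem hEH
    have hnz : z ∉ Gs M K s H₁ := fun h => htch ⟨H₂, E, H₁, hsplit, heE, z, hze, h⟩
    have hnx : x ∉ Gs M K s H₁ := fun h => htch ⟨H₂, E, H₁, hsplit, heE, x, hxe, h⟩
    have hin1 : ∀ y ∈ K, newT M K s H y E → e ∈ A1 := by
      intro y hy hnew
      rw [hA1, mem_biUnion]
      refine ⟨y, hy, ?_⟩
      rw [mem_biUnion]
      refine ⟨E, ?_, heE⟩
      rw [hT]
      exact mem_filter.2 ⟨List.mem_toFinset.2 hEH, hnew⟩
    rw [mem_union]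
    by_cases hnewz : newT M K s H z E
    · exact Or.inl (hin1 z hzK hnewz)
    by_cases hnewx : newT M K s H x E
    · exact Or.inl (hin1 x hxK hnewx)
    right
    have hz1 : ∀ e' ∈ E ∩ ed K, ¬ Disjoint e' (cmp M K H₁ z) := by
      intro e' he' hd
      rw [mem_inter] at he'
      exact hnewz ⟨H₂, H₁, hsplit, hnz, ⟨e, heE, heK, hze⟩, ⟨e', he'.1, he'.2, hd⟩⟩
    have hx1 : ∀ e' ∈ E ∩ ed K, ¬ Disjoint e' (cmp M K H₁ x) := by
      intro e' he' hd
      rw [mem_inter] at he'
      exact hnewx ⟨H₂, H₁, hsplit, hnx, ⟨e, heE, heK, hxe⟩, ⟨e', he'.1, he'.2, hd⟩⟩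
    have hxc : x ∈ cmp M K H₁ z := by
      by_contra hxc
      have hd := hdisj H₁ z x hzK hxK hxc
      have h3 := EXC_pair (cmp M K H₁ z) (cmp M K H₁ x) (E ∩ ed K) hd (by
        intro e' he'
        rw [mem_inter] at he'
        unfold ed at he'
        exact (mem_powersetCard.1 he'.2).2) hz1 hx1
      have h4 := EXC_cmp_card M K s H₁ z hzK hnz
      have h5 := EXC_cmp_card M K s H₁ x hxK hnx
      have h6 : (cmp M K H₁ z).card * (cmp M K H₁ x).card ≤ (s - 1) ^ 2 := by
        rw [sq]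
        exact Nat.mul_le_mul h4 h5
      omega
    rw [hA2, mem_biUnion]
    refine ⟨z, hzK, ?_⟩
    rw [mem_image]
    refine ⟨x, ?_, hezx.symm⟩
    rw [hX]
    refine mem_filter.2 ⟨hxK, H₂ ++ [E], H₁, ?_, hnz, hxc⟩
    rw [hsplit, List.append_assoc]
    rfl
  calc _ ≤ (A1 ∪ A2).card := card_le_card hsub
    _ ≤ A1.card + A2.card := card_union_le _ _
    _ ≤ _ := Nat.add_le_add hA1c hA2c

end Pool.Agent.helper42.CQ
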