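import Pool.Agent.helper42.CQ.SpecC

/-!
# NTC: the number of new turns
-/

set_option autoImplicit false

namespace Pool.Agent.helper42.CQ

open Finset Pool.Agent.helper24.CG

open Classical in
theorem NTC_cmp_self {N : ℕ} (M : ℕ) (K : Finset (Fin N)) (H : List (ES N)) (z : Fin N) (hz : z ∈ K) :
    z ∈ cmp M K H z := by
  unfold cmp
  exact mem_filter.2 ⟨hz, Relation.ReflTransGen.refl⟩

open Classical in
theorem NTC_notWF {N : ℕ} (M : ℕ) (K : Finset (Fin N)) (s : ℕ) (H : List (ES N)) (z : Fin N) (hz : z ∈ K)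
    (h : z ∉ Gs M K s H) : ¬ WF M K H z := by
  intro hw
  apply h
  unfold Gs
  exact mem_filter.2 ⟨hz, Or.inl ⟨z, NTC_cmp_self M K H z hz, hw⟩⟩

open Classical in
theorem NTC_max {N : ℕ} (S : ES N) (h2 : ∀ e ∈ S, e.card = 2) : ∃ D : ES N, D ⊆ S ∧
    (∀ d ∈ D, ∀ d' ∈ D, d ≠ d' → Disjoint d d') ∧ ∀ e ∈ S, ∃ d ∈ D, ¬ Disjoint e d := by
  obtain ⟨P, hP⟩ : ∃ P : Finset (ES N), P = S.powerset.filter
    (fun D => ∀ d ∈ D, ∀ d' ∈ D, d ≠ d' → Disjoint d d') := ⟨_, rfl⟩
  have hPm : ∀ D, D ∈ P ↔ D ⊆ S ∧ ∀ d ∈ D, ∀ d' ∈ D, d ≠ d' → Disjoint d d' := by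
    intro D
    rw [hP, mem_filter, mem_powerset]
  have hne : P.Nonempty := by
    refine ⟨∅, (hPm ∅).2 ⟨empty_subset _, ?_⟩⟩
    intro d hd
    exact absurd hd (notMem_empty d)
  obtain ⟨D, hD, hmax⟩ := exists_max_image P card hne
  obtain ⟨hDS, hDd⟩ := (hPm D).1 hD
  refine ⟨D, hDS, hDd, ?_⟩
  intro e he
  by_contra hcon
  push Not at hcon
  have heD : e ∉ D := by
    intro heD
    have := hcon e heD
    rw [disjoint_self_iff_empty] at this
    have h3 := h2 e he
    rw [this, card_empty] at h3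
    exact absurd h3 (by norm_num)
  have hins : insert e D ∈ P := by
    refine (hPm _).2 ⟨insert_subset he hDS, ?_⟩
    intro d hd d' hd' hne
    rw [mem_insert] at hd hd'
    rcases hd with rfl | hd
    · rcases hd' with rfl | hd'
      · exact absurd rfl hne
      · exact hcon d' hd'
    · rcases hd' with rfl | hd'
      · exact (hcon d hd).symm
      · exact hDd d hd d' hd' hne
  have := hmax _ hins
  rw [card_insert_of_notMem heD] at this
  omega

open Classical in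
theorem NTC (hNT1 : NT1_stmt) : NTC_stmt := by
  intro N m M s K H z T hH hM hz hT
  rcases T.eq_empty_or_nonempty with rfl | hTne
  · simp
  have hdec : ∀ E ∈ T, ∃ (H₂ H₁ : List (ES N)), H = H₂ ++ (E :: H₁) ∧ z ∉ Gs M K s H₁ ∧
      (∃ e ∈ E, e ∈ ed K ∧ z ∈ e) ∧ ∃ e' ∈ E, e' ∈ ed K ∧ Disjoint e' (cmp M K H₁ z) := by
    intro E hE
    exact hT E hE
  choose! F₂ F₁ hF1 hF2 hF3 f hf1 hf2 hf3 using hdec
  obtain ⟨E₀, hE₀, hmax⟩ := exists_max_image T (fun E => (F₁ E).length) hTne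
  have hsuf : ∀ E ∈ T, (E :: F₁ E) <:+ H := fun E hE => ⟨F₂ E, (hF1 E hE).symm⟩
  have hmem : ∀ E ∈ T.erase E₀, E ∈ F₁ E₀ := by
    intro E hE
    obtain ⟨hne, hET⟩ := mem_erase.1 hE
    have hlen := hmax E hET
    have s1 := hsuf E hET
    have s0 := hsuf E₀ hE₀
    rcases Nat.lt_or_ge (F₁ E).length (F₁ E₀).length with hlt | hge
    · have s0' : F₁ E₀ <:+ H := (List.suffix_cons E₀ (F₁ E₀)).trans s0
      have h3 : (E :: F₁ E) <:+ F₁ E₀ := List.suffix_of_suffix_length_le s1 s0' (by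
        rw [List.length_cons]; omega)
      exact h3.subset List.mem_cons_self
    · exfalso
      have heq : (F₁ E).length = (F₁ E₀).length := le_antisymm hlen hge
      have h3 : (E :: F₁ E) <:+ (E₀ :: F₁ E₀) := List.suffix_of_suffix_length_le s1 s0 (by
        rw [List.length_cons, List.length_cons]; omega)
      have h4 := h3.eq_of_length (by rw [List.length_cons, List.length_cons, heq])
      exact hne (List.head_eq_of_cons_eq h4)
  have hzf : ∀ E ∈ T, z ∉ f E := by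
    intro E hE hzE
    exact disjoint_left.1 (hf3 E hE) hzE (NTC_cmp_self M K _ z hz)
  obtain ⟨S, hS⟩ : ∃ S : ES N, S = (T.erase E₀).image f := ⟨_, rfl⟩
  have hSpart : ∀ e ∈ S, e ∈ part K (F₁ E₀) z := by
    intro e he
    rw [hS, mem_image] at he
    obtain ⟨E, hE, rfl⟩ := he
    have hET := (mem_erase.1 hE).2
    unfold part
    exact mem_filter.2 ⟨hf2 E hET, hzf E hET, E, hmem E hE, hf1 E hET, hF3 E hET⟩
  have hS2 : ∀ e ∈ S, e.card = 2 := by
    intro e he
    have h1 := hSpart e he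
    unfold part at h1
    have h2 := (mem_filter.1 h1).1
    unfold ed at h2
    exact (mem_powersetCard.1 h2).2
  obtain ⟨D, hDS, hDd, hDm⟩ := NTC_max S hS2
  have hDc : D.card < M := by
    by_contra hcon
    push Not at hcon
    obtain ⟨D', hD'D, hD'c⟩ := exists_subset_card_eq hcon
    apply NTC_notWF M K s (F₁ E₀) z hz (hF2 E₀ hE₀)
    refine ⟨D', ?_, hD'c, ?_⟩
    · intro d hd
      exact hSpart d (hDS (hD'D hd))
    · intro d hd d' hd' hne
      exact hDd d (hD'D hd) d' (hD'D hd') hne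
  have hVc : (D.biUnion id).card ≤ 2 * D.card := by
    calc (D.biUnion id).card ≤ ∑ d ∈ D, (id d).card := card_biUnion_le
      _ ≤ ∑ d ∈ D, 2 := sum_le_sum (fun d hd => (hS2 d (hDS hd)).le)
      _ = 2 * D.card := by rw [sum_const, smul_eq_mul, mul_comm]
  have hsub : T.erase E₀ ⊆ (D.biUnion id).biUnion (fun h => (T.erase E₀).filter (fun E => h ∈ f E)) := by
    intro E hE
    have heS : f E ∈ S := by
      rw [hS]
      exact mem_image_of_mem f hE
    obtain ⟨d, hd, hnd⟩ := hDm (f E) heS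
    obtain ⟨h, h1, h2⟩ := not_disjoint_iff.1 hnd
    rw [mem_biUnion]
    exact ⟨h, mem_biUnion.2 ⟨d, hd, h2⟩, mem_filter.2 ⟨hE, h1⟩⟩
  have hTh : ∀ h ∈ D.biUnion id, ((T.erase E₀).filter (fun E => h ∈ f E)).card ≤ M + 1 := by
    intro h hh
    rw [mem_biUnion] at hh
    obtain ⟨d, hd, hhd⟩ := hh
    have hhK : h ∈ K := by
      have h1 := hSpart d (hDS hd)
      unfold part at h1
      have h2 := (mem_filter.1 h1).1
      unfold ed at h2
      exact (mem_powersetCard.1 h2).1 hhd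
    apply hNT1 N m M K H z h _ hH hM hz hhK
    intro E hE
    obtain ⟨hE1, hE2⟩ := mem_filter.1 hE
    have hET := (mem_erase.1 hE1).2
    exact ⟨F₂ E, F₁ E, hF1 E hET, disjoint_left.1 (hf3 E hET) hE2, hF3 E hET,
      f E, hf1 E hET, hf2 E hET, hE2, hzf E hET⟩
  have hcard : (T.erase E₀).card ≤ 2 * D.card * (M + 1) := by
    calc (T.erase E₀).card ≤ _ := card_le_card hsub
      _ ≤ ∑ h ∈ D.biUnion id, ((T.erase E₀).filter (fun E => h ∈ f E)).card := card_biUnion_le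
      _ ≤ ∑ h ∈ D.biUnion id, (M + 1) := sum_le_sum hTh
      _ = (D.biUnion id).card * (M + 1) := by rw [sum_const, smul_eq_mul]
      _ ≤ 2 * D.card * (M + 1) := Nat.mul_le_mul_right _ hVc
  have hTc : T.card = (T.erase E₀).card + 1 := (card_erase_add_one hE₀).symm
  obtain ⟨M', rfl⟩ : ∃ M', M = M' + 1 := ⟨M - 1, by omega⟩
  have hD' : D.card ≤ M' := by omega
  have h3 : 2 * D.card * (M' + 1 + 1) ≤ 2 * M' * (M' + 1 + 1) :=
    Nat.mul_le_mul_right _ (Nat.mul_le_mul_left 2 hD')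
  rw [hTc]
  nlinarith

end Pool.Agent.helper42.CQ
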